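import Pool.Agent.Lib.MP_edb5be_nt.TS.Iface
import Pool.Agent.Lib.MP_edb5be_nt.ND.H75.Count

/-!
Project TS (MP_edb5be_nt), module RES: the classes modulo `2 ^ j * 3 ^ k`, in blocks.
-/

set_option autoImplicit false

namespace Pool.Agent.Lib.MP_edb5be_nt.TS.H07

open Finset Filter Topology Pool.Agent.Lib.MP_0a5adf_nt.TP Pool.Agent.Lib.MP_edb5be_nt.ND

/-- Sets with the same elements from `2 ^ u` on have the same block proportion. -/
theorem gd_congr {P Q : Set ℕ} {u : ℝ} (h : ∀ N : ℕ, (2 : ℝ) ^ u ≤ N → (N ∈ P ↔ N ∈ Q)) :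
    Gd P u = Gd Q u := by
  have e : {N : ℕ | N ∈ P ∧ (2 : ℝ) ^ u ≤ N ∧ (N : ℝ) < 2 ^ (u + 1)} =
      {N : ℕ | N ∈ Q ∧ (2 : ℝ) ^ u ≤ N ∧ (N : ℝ) < 2 ^ (u + 1)} := by
    ext N
    constructor
    · rintro ⟨h1, h2, h3⟩
      exact ⟨(h N h2).1 h1, h2, h3⟩
    · rintro ⟨h1, h2, h3⟩
      exact ⟨(h N h2).2 h1, h2, h3⟩
  unfold Gd
  rw [e]

/-- number of the elements of `B` in `[1, p)` -/
noncomputable def cc (B : Set ℕ) (p : ℝ) : ℝ := ({N : ℕ | N ∈ B ∧ 1 ≤ N ∧ (N : ℝ) < p}.ncard : ℝ)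

theorem cc_fin (B : Set ℕ) (p : ℝ) : {N : ℕ | N ∈ B ∧ 1 ≤ N ∧ (N : ℝ) < p}.Finite :=
  (H75.finA B p).subset fun _ h => ⟨h.1, h.2.1, h.2.2.le⟩

theorem cc_le (B : Set ℕ) {p q : ℝ} (h1 : p ≤ q) (h2 : q ≤ p + 1) :
    cc B p ≤ cc B q ∧ cc B q ≤ cc B p + 1 := by
  have s1 : {N : ℕ | N ∈ B ∧ 1 ≤ N ∧ (N : ℝ) < p} ⊆ {N : ℕ | N ∈ B ∧ 1 ≤ N ∧ (N : ℝ) < q} :=
    fun _ h => ⟨h.1, h.2.1, h.2.2.trans_le h1⟩
  have s2 : {N : ℕ | N ∈ B ∧ 1 ≤ N ∧ (N : ℝ) < q} ⊆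
      insert ⌈p⌉₊ {N : ℕ | N ∈ B ∧ 1 ≤ N ∧ (N : ℝ) < p} := by
    rintro N ⟨a, b, c⟩
    by_cases h : (N : ℝ) < p
    · exact Or.inr ⟨a, b, h⟩
    · left
      push Not at h
      have h3 : ⌈p⌉₊ ≤ N := Nat.ceil_le.2 h
      have h4 : N < ⌈p⌉₊ + 1 := by
        have h5 := Nat.le_ceil p
        have h6 : (N : ℝ) < (⌈p⌉₊ : ℝ) + 1 := by linarith
        exact_mod_cast h6
      omega
  have e1 : {N : ℕ | N ∈ B ∧ 1 ≤ N ∧ (N : ℝ) < p}.ncard ≤
      {N : ℕ | N ∈ B ∧ 1 ≤ N ∧ (N : ℝ) < q}.ncard := Set.ncard_le_ncard s1 (cc_fin B q)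
  have e2 : {N : ℕ | N ∈ B ∧ 1 ≤ N ∧ (N : ℝ) < q}.ncard ≤
      {N : ℕ | N ∈ B ∧ 1 ≤ N ∧ (N : ℝ) < p}.ncard + 1 :=
    (Set.ncard_le_ncard s2 ((cc_fin B p).insert _)).trans (Set.ncard_insert_le _ _)
  unfold cc
  exact ⟨by exact_mod_cast e1, by exact_mod_cast e2⟩

theorem cc_near (B : Set ℕ) {p q : ℝ} (h : |p - q| ≤ 1) : |cc B p - cc B q| ≤ 1 := by
  have h1 := abs_le.1 h
  rcases le_total p q with h2 | h2
  · obtain ⟨a, b⟩ := cc_le B h2 (by linarith)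
    rw [abs_le]
    constructor <;> linarith
  · obtain ⟨a, b⟩ := cc_le B h2 (by linarith)
    rw [abs_le]
    constructor <;> linarith

/-- A set in bijection with another one through `2 * m = a * n + b`. -/
theorem gd_affine {C C' : Set ℕ} (a b : ℝ) (ha : 0 < a) (hb : |b| ≤ 2) (φ : ℕ → ℕ)
    (h1 : ∀ n ∈ C, 1 ≤ n → φ n ∈ C' ∧ 1 ≤ φ n) (h2 : ∀ m ∈ C', 1 ≤ m → ∃ n ∈ C, 1 ≤ n ∧ φ n = m)
    (h3 : ∀ n ∈ C, 2 * (φ n : ℝ) = a * n + b) {x : ℝ} (hx : 0 ≤ x)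
    (hx' : 0 ≤ x + Real.logb 2 (a / 2)) :
    |Gd C x - a / 2 * Gd C' (x + Real.logb 2 (a / 2))| ≤ 2 / 2 ^ x := by
  have hct : ∀ X : ℝ, cc C X = cc C' ((a * X + b) / 2) := by
    intro X
    unfold cc
    congr 1
    have himg : φ '' {N : ℕ | N ∈ C ∧ 1 ≤ N ∧ (N : ℝ) < X} =
        {N : ℕ | N ∈ C' ∧ 1 ≤ N ∧ (N : ℝ) < (a * X + b) / 2} := by
      ext m
      constructor
      · rintro ⟨n, ⟨n1, n2, n3⟩, rfl⟩
        refine ⟨(h1 n n1 n2).1, (h1 n n1 n2).2, ?_⟩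
        have := h3 n n1
        have h4 : a * n < a * X := mul_lt_mul_of_pos_left n3 ha
        linarith
      · rintro ⟨m1, m2, m3⟩
        obtain ⟨n, n1, n2, rfl⟩ := h2 m m1 m2
        refine ⟨n, ⟨n1, n2, ?_⟩, rfl⟩
        have := h3 n n1
        have h4 : a * n < a * X := by linarith
        exact lt_of_mul_lt_mul_left h4 ha.le
    rw [← himg]
    refine (Set.InjOn.ncard_image ?_).symm
    rintro n ⟨n1, -, -⟩ n' ⟨n1', -, -⟩ hnn
    have e1 := h3 n n1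
    have e2 := h3 n' n1'
    have hnn' : φ n = φ n' := hnn
    rw [hnn'] at e1
    have e3 : a * (n : ℝ) = a * n' := by linarith
    exact_mod_cast mul_left_cancel₀ ha.ne' e3
  set l := Real.logb 2 (a / 2) with hl
  have hl2 : (2 : ℝ) ^ l = a / 2 := Real.rpow_logb (by norm_num) (by norm_num) (by positivity)
  have hnear : ∀ y : ℝ, |H75.A C y - H75.A C' (y + l)| ≤ 1 := by
    intro y
    have e1 : H75.A C y = cc C ((2 : ℝ) ^ y) := rfl
    have e2 : H75.A C' (y + l) = cc C' ((2 : ℝ) ^ (y + l)) := rfl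
    rw [e1, e2, hct, Real.rpow_add (by norm_num), hl2]
    refine cc_near C' ?_
    have e3 : (a * 2 ^ y + b) / 2 - 2 ^ y * (a / 2) = b / 2 := by ring
    rw [e3, abs_div, abs_of_pos (show (0 : ℝ) < 2 by norm_num)]
    linarith
  have a1 := H75.A_succ C x hx
  have a2 := H75.A_succ C' (x + l) hx'
  have n1 := hnear x
  have n2 := hnear (x + 1)
  have e4 : x + 1 + l = x + l + 1 := by ring
  rw [e4, a2, a1] at n2
  have e5 : (2 : ℝ) ^ (x + l) = 2 ^ x * (a / 2) := by rw [Real.rpow_add (by norm_num), hl2]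
  rw [e5] at n2
  have h2x : (0 : ℝ) < 2 ^ x := by positivity
  rw [le_div_iff₀ h2x]
  have e6 : |Gd C x - a / 2 * Gd C' (x + l)| * 2 ^ x =
      |2 ^ x * Gd C x - 2 ^ x * (a / 2) * Gd C' (x + l)| := by
    rw [← abs_of_pos h2x, ← abs_mul, abs_of_pos h2x]
    congr 1
    ring
  rw [e6]
  have b1 := abs_le.1 n1
  have b2 := abs_le.1 n2
  rw [abs_le]
  constructor <;> linarith

/-- The elements of `B` in the class of `c` modulo `2 ^ j * 3 ^ k`. -/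
def cl (B : Set ℕ) (j k c : ℕ) : Set ℕ := {n : ℕ | n ∈ B ∧ n ≡ c [MOD 2 ^ j * 3 ^ k]}

theorem nat_of_pow {lo N : ℕ} {y : ℝ} (hy : (lo : ℝ) ≤ y) (hN : (2 : ℝ) ^ y ≤ N) : 2 ^ lo ≤ N := by
  have h : (2 : ℝ) ^ lo ≤ N := by
    rw [← Real.rpow_natCast]
    exact (Real.rpow_le_rpow_of_exponent_le (by norm_num) hy).trans hN
  exact_mod_cast h

theorem even_step (d : Bool) (B B₁ : Set ℕ) (lo : ℕ)
    (hB : ∀ n : ℕ, 2 ^ lo ≤ n → (n ∈ B ↔ T d n ∈ B₁)) (j k c' : ℕ) {y : ℝ} (hlo : (lo : ℝ) ≤ y)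
    (hy : 1 ≤ y) :
    |Gd (cl B (j + 1) k (2 * c')) y - 1 / 2 * Gd (cl B₁ j k c') (y + Real.logb 2 (1 / 2))| ≤
      2 / 2 ^ y := by
  have e : Gd (cl B (j + 1) k (2 * c')) y = Gd {n : ℕ | ∃ m ∈ cl B₁ j k c', n = 2 * m} y := by
    refine gd_congr fun n hn => ?_
    replace hn := nat_of_pow hlo hn
    constructor
    · rintro ⟨n1, n2⟩
      have hev : n % 2 = 0 := by
        have h2 : n ≡ 2 * c' [MOD 2] := by
          refine n2.of_dvd ?_
          rw [pow_succ]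
          exact ⟨2 ^ j * 3 ^ k, by ring⟩
        unfold Nat.ModEq at h2
        omega
      obtain ⟨m, rfl⟩ : ∃ m, n = 2 * m := ⟨n / 2, by omega⟩
      refine ⟨m, ⟨?_, ?_⟩, rfl⟩
      · have h3 := (hB _ hn).1 n1
        unfold T at h3
        rw [if_pos (by omega), Nat.mul_div_cancel_left _ (by norm_num)] at h3
        exact h3
      · have e2 : 2 ^ (j + 1) * 3 ^ k = 2 * (2 ^ j * 3 ^ k) := by ring
        rw [e2] at n2
        exact Nat.ModEq.mul_left_cancel' (by norm_num) n2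
    · rintro ⟨m, ⟨m1, m2⟩, rfl⟩
      refine ⟨?_, ?_⟩
      · rw [hB _ hn]
        unfold T
        rw [if_pos (by omega), Nat.mul_div_cancel_left _ (by norm_num)]
        exact m1
      · have e2 : 2 ^ (j + 1) * 3 ^ k = 2 * (2 ^ j * 3 ^ k) := by ring
        rw [e2]
        exact Nat.ModEq.mul_left' 2 m2
  rw [e]
  have hl : Real.logb 2 (1 / 2) = -1 := by
    rw [one_div, Real.logb_inv, Real.logb_self_eq_one (by norm_num)]
  refine gd_affine 1 0 one_pos (by norm_num) (fun n => n / 2) ?_ ?_ ?_ (by linarith)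
    (by rw [hl]; linarith)
  · rintro n ⟨m, hm, rfl⟩ h1
    rw [Nat.mul_div_cancel_left _ (by norm_num)]
    exact ⟨hm, by omega⟩
  · intro m hm hm1
    exact ⟨2 * m, ⟨m, hm, rfl⟩, by omega, by simp⟩
  · rintro n ⟨m, hm, rfl⟩
    rw [Nat.mul_div_cancel_left _ (by norm_num)]
    push_cast
    ring

theorem logb_nonneg' : 0 ≤ Real.logb 2 (3 / 2) := Real.logb_nonneg (by norm_num) (by norm_num)

theorem odd_true (B B₁ : Set ℕ) (lo : ℕ)
    (hB : ∀ n : ℕ, 2 ^ lo ≤ n → (n ∈ B ↔ T true n ∈ B₁)) (j k c' : ℕ) {y : ℝ} (hlo : (lo : ℝ) ≤ y)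
    (hy : 1 ≤ y) :
    |Gd (cl B (j + 1) k (2 * c' + 1)) y -
      3 / 2 * Gd (cl B₁ j (k + 1) (3 * c' + 2)) (y + Real.logb 2 (3 / 2))| ≤ 2 / 2 ^ y := by
  have hiff : ∀ n m : ℕ, 2 * m = 3 * n + 1 →
      (n ≡ 2 * c' + 1 [MOD 2 ^ (j + 1) * 3 ^ k] ↔
        m ≡ 3 * c' + 2 [MOD 2 ^ j * 3 ^ (k + 1)]) := by
    intro n m hnm
    have e1 : n ≡ 2 * c' + 1 [MOD 2 ^ (j + 1) * 3 ^ k] ↔
        3 * n ≡ 3 * (2 * c' + 1) [MOD 3 * (2 ^ (j + 1) * 3 ^ k)] :=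
      ⟨fun h => Nat.ModEq.mul_left' 3 h, fun h => Nat.ModEq.mul_left_cancel' (by norm_num) h⟩
    have e2 : m ≡ 3 * c' + 2 [MOD 2 ^ j * 3 ^ (k + 1)] ↔
        2 * m ≡ 2 * (3 * c' + 2) [MOD 2 * (2 ^ j * 3 ^ (k + 1))] :=
      ⟨fun h => Nat.ModEq.mul_left' 2 h, fun h => Nat.ModEq.mul_left_cancel' (by norm_num) h⟩
    have e3 : 3 * (2 ^ (j + 1) * 3 ^ k) = 2 * (2 ^ j * 3 ^ (k + 1)) := by ring
    have e4 : 2 * (3 * c' + 2) = 3 * (2 * c' + 1) + 1 := by ring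
    rw [e1, e2, e3, hnm, e4]
    exact ⟨fun h => Nat.ModEq.add_right 1 h, fun h => Nat.ModEq.add_right_cancel' 1 h⟩
  have e : Gd (cl B (j + 1) k (2 * c' + 1)) y =
      Gd {n : ℕ | ∃ m ∈ cl B₁ j (k + 1) (3 * c' + 2), 2 * m = 3 * n + 1} y := by
    refine gd_congr fun n hn => ?_
    replace hn := nat_of_pow hlo hn
    constructor
    · rintro ⟨n1, n2⟩
      have hod : n % 2 = 1 := by
        have h2 : n ≡ 2 * c' + 1 [MOD 2] := by
          refine n2.of_dvd ?_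
          rw [pow_succ]
          exact ⟨2 ^ j * 3 ^ k, by ring⟩
        unfold Nat.ModEq at h2
        omega
      have h3 := (hB _ hn).1 n1
      unfold T at h3
      rw [if_neg (by omega), if_pos rfl] at h3
      have h4 : 2 * ((3 * n + 1) / 2) = 3 * n + 1 := by omega
      exact ⟨(3 * n + 1) / 2, ⟨h3, (hiff n _ h4).1 n2⟩, h4⟩
    · rintro ⟨m, ⟨m1, m2⟩, hm⟩
      refine ⟨?_, (hiff n m hm).2 m2⟩
      rw [hB _ hn]
      unfold T
      rw [if_neg (by omega), if_pos rfl]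
      have : (3 * n + 1) / 2 = m := by omega
      rw [this]
      exact m1
  rw [e]
  have hl := logb_nonneg'
  refine gd_affine 3 1 (by norm_num) (by norm_num) (fun n => (3 * n + 1) / 2) ?_ ?_ ?_
    (by linarith) (by linarith)
  · rintro n ⟨m, hm, hmn⟩ h1
    have : (3 * n + 1) / 2 = m := by omega
    simp only [this]
    exact ⟨hm, by omega⟩
  · intro m hm hm1
    have h3 : m ≡ 3 * c' + 2 [MOD 3] := by
      refine hm.2.of_dvd ?_
      rw [pow_succ]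
      exact ⟨2 ^ j * 3 ^ k, by ring⟩
    unfold Nat.ModEq at h3
    have h4 : m % 3 = 2 := by omega
    refine ⟨(2 * m - 1) / 3, ⟨m, hm, by omega⟩, by omega, by omega⟩
  · rintro n ⟨m, hm, hmn⟩
    have : (3 * n + 1) / 2 = m := by omega
    simp only [this]
    exact_mod_cast hmn

theorem odd_false (B B₁ : Set ℕ) (lo : ℕ)
    (hB : ∀ n : ℕ, 2 ^ lo ≤ n → (n ∈ B ↔ T false n ∈ B₁)) (j k c' : ℕ) {y : ℝ} (hlo : (lo : ℝ) ≤ y)
    (hy : 1 ≤ y) :
    |Gd (cl B (j + 1) k (2 * c' + 1)) y -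
      3 / 2 * Gd (cl B₁ j (k + 1) (3 * c' + 1)) (y + Real.logb 2 (3 / 2))| ≤ 2 / 2 ^ y := by
  have hiff : ∀ n m : ℕ, 2 * m + 1 = 3 * n →
      (n ≡ 2 * c' + 1 [MOD 2 ^ (j + 1) * 3 ^ k] ↔
        m ≡ 3 * c' + 1 [MOD 2 ^ j * 3 ^ (k + 1)]) := by
    intro n m hnm
    have e1 : n ≡ 2 * c' + 1 [MOD 2 ^ (j + 1) * 3 ^ k] ↔
        3 * n ≡ 3 * (2 * c' + 1) [MOD 3 * (2 ^ (j + 1) * 3 ^ k)] :=
      ⟨fun h => Nat.ModEq.mul_left' 3 h, fun h => Nat.ModEq.mul_left_cancel' (by norm_num) h⟩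
    have e2 : m ≡ 3 * c' + 1 [MOD 2 ^ j * 3 ^ (k + 1)] ↔
        2 * m ≡ 2 * (3 * c' + 1) [MOD 2 * (2 ^ j * 3 ^ (k + 1))] :=
      ⟨fun h => Nat.ModEq.mul_left' 2 h, fun h => Nat.ModEq.mul_left_cancel' (by norm_num) h⟩
    have e3 : 3 * (2 ^ (j + 1) * 3 ^ k) = 2 * (2 ^ j * 3 ^ (k + 1)) := by ring
    have e4 : 3 * (2 * c' + 1) = 2 * (3 * c' + 1) + 1 := by ring
    rw [e1, e2, e3, ← hnm, e4]
    exact ⟨fun h => Nat.ModEq.add_right_cancel' 1 h, fun h => Nat.ModEq.add_right 1 h⟩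
  have e : Gd (cl B (j + 1) k (2 * c' + 1)) y =
      Gd {n : ℕ | ∃ m ∈ cl B₁ j (k + 1) (3 * c' + 1), 2 * m + 1 = 3 * n} y := by
    refine gd_congr fun n hn => ?_
    replace hn := nat_of_pow hlo hn
    constructor
    · rintro ⟨n1, n2⟩
      have hod : n % 2 = 1 := by
        have h2 : n ≡ 2 * c' + 1 [MOD 2] := by
          refine n2.of_dvd ?_
          rw [pow_succ]
          exact ⟨2 ^ j * 3 ^ k, by ring⟩
        unfold Nat.ModEq at h2
        omega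
      have h3 := (hB _ hn).1 n1
      unfold T at h3
      rw [if_neg (by omega), if_neg (by decide)] at h3
      have h4 : 2 * ((3 * n - 1) / 2) + 1 = 3 * n := by omega
      exact ⟨(3 * n - 1) / 2, ⟨h3, (hiff n _ h4).1 n2⟩, h4⟩
    · rintro ⟨m, ⟨m1, m2⟩, hm⟩
      refine ⟨?_, (hiff n m hm).2 m2⟩
      rw [hB _ hn]
      unfold T
      rw [if_neg (by omega), if_neg (by decide)]
      have : (3 * n - 1) / 2 = m := by omega
      rw [this]
      exact m1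
  rw [e]
  have hl := logb_nonneg'
  refine gd_affine 3 (-1) (by norm_num) (by norm_num) (fun n => (3 * n - 1) / 2) ?_ ?_ ?_
    (by linarith) (by linarith)
  · rintro n ⟨m, hm, hmn⟩ h1
    have : (3 * n - 1) / 2 = m := by omega
    simp only [this]
    exact ⟨hm, by omega⟩
  · intro m hm hm1
    have h3 : m ≡ 3 * c' + 1 [MOD 3] := by
      refine hm.2.of_dvd ?_
      rw [pow_succ]
      exact ⟨2 ^ j * 3 ^ k, by ring⟩
    unfold Nat.ModEq at h3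
    have h4 : m % 3 = 1 := by omega
    refine ⟨(2 * m + 1) / 3, ⟨m, hm, by omega⟩, by omega, by omega⟩
  · rintro n ⟨m, hm, hmn⟩
    have : (3 * n - 1) / 2 = m := by omega
    simp only [this]
    have h5 : 2 * (m : ℝ) + 1 = 3 * n := by exact_mod_cast hmn
    linarith

/-- Limits of sequences related by one step. -/
theorem lim_step {f g : ℝ → ℝ} {a L : ℝ} (x : ℝ) (hg : Tendsto g atTop (𝓝 L))
    (h : ∀ᶠ u : ℝ in atTop, |f u - a * g u| ≤ 2 / 2 ^ (u + x)) :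
    Tendsto f atTop (𝓝 (a * L)) := by
  have h1 : Tendsto (fun u : ℝ => f u - a * g u) atTop (𝓝 0) := by
    refine squeeze_zero_norm' h ?_
    have hp : Tendsto (fun u : ℝ => (2 : ℝ) ^ u) atTop atTop :=
      tendsto_rpow_atTop_of_base_gt_one 2 (by norm_num)
    exact (hp.comp (tendsto_atTop_add_const_right _ x tendsto_id)).const_div_atTop 2
  have h2 := h1.add (hg.const_mul a)
  rw [zero_add] at h2
  refine h2.congr fun u => ?_
  ring

theorem ev_lo {lo : ℝ → ℕ} (hlo : Tendsto (fun u : ℝ => (lo u : ℝ) / u) atTop (𝓝 0)) (x : ℝ) :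
    ∀ᶠ u : ℝ in atTop, (lo u : ℝ) ≤ 9 / 10 * (u + x) ∧ (lo u : ℝ) ≤ u + x := by
  have h1 : ∀ᶠ u : ℝ in atTop, (lo u : ℝ) / u < 1 / 10 := hlo.eventually_lt_const (by norm_num)
  filter_upwards [h1, eventually_gt_atTop (0 : ℝ), eventually_ge_atTop (2 * |x|)] with u h2 h3 h4
  rw [div_lt_iff₀ h3] at h2
  have h5 := neg_abs_le x
  constructor <;> linarith

theorem ev_t {t : ℝ → ℕ} (ht : ∀ᶠ u : ℝ in atTop, u ^ (1 / 3 : ℝ) ≤ t u) (i : ℕ) (x : ℝ) :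
    ∀ᶠ u : ℝ in atTop, i < t u ∧ (u + x) ^ (1 / 4 : ℝ) ≤ ((t u - i : ℕ) : ℝ) := by
  have t1 : ∀ᶠ u : ℝ in atTop, (3 : ℝ) ≤ u ^ (1 / 12 : ℝ) :=
    (tendsto_rpow_atTop (by norm_num : (0 : ℝ) < 1 / 12)).eventually_ge_atTop 3
  have t2 : ∀ᶠ u : ℝ in atTop, (i : ℝ) + 1 ≤ u ^ (1 / 4 : ℝ) :=
    (tendsto_rpow_atTop (by norm_num : (0 : ℝ) < 1 / 4)).eventually_ge_atTop _
  filter_upwards [ht, t1, t2, eventually_gt_atTop (0 : ℝ), eventually_ge_atTop (2 * |x|)] with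
    u h1 h2 h3 h4 h5
  have e1 : u ^ (1 / 3 : ℝ) = u ^ (1 / 4 : ℝ) * u ^ (1 / 12 : ℝ) := by
    rw [← Real.rpow_add h4]
    norm_num
  have h0 : 0 ≤ u ^ (1 / 4 : ℝ) := by positivity
  have h6 : 3 * u ^ (1 / 4 : ℝ) ≤ t u := by
    rw [e1] at h1
    have := mul_le_mul_of_nonneg_left h2 h0
    linarith
  have h7 : (i : ℝ) < t u := by linarith
  have h8 : i < t u := by exact_mod_cast h7
  refine ⟨h8, ?_⟩
  rw [Nat.cast_sub h8.le]
  have h9 : (u + x) ^ (1 / 4 : ℝ) ≤ 2 * u ^ (1 / 4 : ℝ) := by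
    have b1 : 0 ≤ u + x := by
      have := neg_abs_le x
      have := abs_nonneg x
      linarith
    have b2 : u + x ≤ 2 * u := by
      have := le_abs_self x
      have := abs_nonneg x
      linarith
    have b3 : (u + x) ^ (1 / 4 : ℝ) ≤ (2 * u) ^ (1 / 4 : ℝ) :=
      Real.rpow_le_rpow b1 b2 (by norm_num)
    rw [Real.mul_rpow (by norm_num) h4.le] at b3
    have b4 : (2 : ℝ) ^ (1 / 4 : ℝ) ≤ 2 ^ (1 : ℝ) :=
      Real.rpow_le_rpow_of_exponent_le (by norm_num) (by norm_num)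
    rw [Real.rpow_one] at b4
    exact b3.trans (mul_le_mul_of_nonneg_right b4 h0)
  linarith

theorem res_gen (hF : FMEQFStatement) (d : Bool) (B : ℝ → ℕ → Set ℕ) (lo t : ℝ → ℕ) (δ : ℝ)
    (hinv : ∀ᶠ u in atTop, InvF d (B u) (lo u))
    (hlo : Tendsto (fun u : ℝ => (lo u : ℝ) / u) atTop (𝓝 0))
    (ht : ∀ᶠ u : ℝ in atTop, u ^ (1 / 3 : ℝ) ≤ t u)
    (hδ : ∀ (h : ℝ) (j : ℕ), Tendsto (fun u : ℝ => Gd (B u (t u - j)) (u + h)) atTop (𝓝 δ))
    (j : ℕ) : ∀ (k c i : ℕ) (x : ℝ),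
      Tendsto (fun u : ℝ => Gd (cl (B u (t u - i)) j k c) (u + x)) atTop
        (𝓝 (δ / (2 ^ j * 3 ^ k))) := by
  induction j with
  | zero =>
    intro k c i x
    obtain ⟨C, u₀, hC, hF2⟩ := hF k
    have h3k : (0 : ℝ) < 3 ^ k := by positivity
    have hdiff : Tendsto (fun u : ℝ => 3 ^ k * Gd (cl (B u (t u - i)) 0 k c) (u + x) -
        Gd (B u (t u - i)) (u + x)) atTop (𝓝 0) := by
      have hbd : ∀ᶠ u : ℝ in atTop, ‖3 ^ k * Gd (cl (B u (t u - i)) 0 k c) (u + x) -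
          Gd (B u (t u - i)) (u + x)‖ ≤ C / (u + x) := by
        filter_upwards [hinv, ev_lo hlo x, ev_t ht i x, eventually_ge_atTop (u₀ - x)] with
          u h1 h2 h3 h4
        have h5 := hF2 d (B u) (lo u) (t u - i) (u + x) (c : ZMod (3 ^ k)) (by linarith) h2.1 h1 h3.2
        have e : cl (B u (t u - i)) 0 k c =
            {N : ℕ | N ∈ B u (t u - i) ∧ (N : ZMod (3 ^ k)) = (c : ZMod (3 ^ k))} := by
          ext n
          unfold cl
          rw [Set.mem_ofPred_eq, Set.mem_ofPred_eq, ZMod.natCast_eq_natCast_iff, pow_zero, one_mul]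
        rw [Real.norm_eq_abs, e]
        exact h5
      refine squeeze_zero_norm' hbd ?_
      exact (tendsto_atTop_add_const_right _ x tendsto_id).const_div_atTop C
    have h1 := (hdiff.add (hδ x i)).div_const ((3 : ℝ) ^ k)
    rw [zero_add] at h1
    rw [pow_zero, one_mul]
    refine h1.congr fun u => ?_
    field_simp
    ring
  | succ j ih =>
    intro k c i x
    have hi : ∀ u : ℝ, i < t u → t u - i = (t u - (i + 1)) + 1 := fun u hu => by omega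
    rcases Nat.even_or_odd' c with ⟨c', hc | hc⟩
    · subst hc
      have e : δ / (2 ^ (j + 1) * 3 ^ k) = 1 / 2 * (δ / (2 ^ j * 3 ^ k)) := by
        rw [pow_succ]
        field_simp
      rw [e]
      refine lim_step x (ih k c' (i + 1) (x + Real.logb 2 (1 / 2))) ?_
      filter_upwards [hinv, ev_lo hlo x, ev_t ht i x, eventually_ge_atTop (1 - x)] with
        u h1 h2 h3 h4
      rw [← add_assoc]
      refine even_step d _ _ (lo u) (fun n hn => ?_) j k c' h2.2 (by linarith)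
      rw [hi u h3.1]
      exact h1 n hn _
    · subst hc
      cases d with
      | true =>
        have e : δ / (2 ^ (j + 1) * 3 ^ k) = 3 / 2 * (δ / (2 ^ j * 3 ^ (k + 1))) := by
          rw [pow_succ, pow_succ]
          field_simp
        rw [e]
        refine lim_step x (ih (k + 1) (3 * c' + 2) (i + 1) (x + Real.logb 2 (3 / 2))) ?_
        filter_upwards [hinv, ev_lo hlo x, ev_t ht i x, eventually_ge_atTop (1 - x)] with
          u h1 h2 h3 h4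
        rw [← add_assoc]
        refine odd_true _ _ (lo u) (fun n hn => ?_) j k c' h2.2 (by linarith)
        rw [hi u h3.1]
        exact h1 n hn _
      | false =>
        have e : δ / (2 ^ (j + 1) * 3 ^ k) = 3 / 2 * (δ / (2 ^ j * 3 ^ (k + 1))) := by
          rw [pow_succ, pow_succ]
          field_simp
        rw [e]
        refine lim_step x (ih (k + 1) (3 * c' + 1) (i + 1) (x + Real.logb 2 (3 / 2))) ?_
        filter_upwards [hinv, ev_lo hlo x, ev_t ht i x, eventually_ge_atTop (1 - x)] with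
          u h1 h2 h3 h4
        rw [← add_assoc]
        refine odd_false _ _ (lo u) (fun n hn => ?_) j k c' h2.2 (by linarith)
        rw [hi u h3.1]
        exact h1 n hn _

/-- Module RES. -/
theorem res (hF : FMEQFStatement) : RESStatement := by
  intro d B lo t δ hinv hlo ht hδ j k c
  have h := res_gen hF d B lo t δ hinv hlo ht hδ j k c 0 0
  refine h.congr fun u => ?_
  rw [add_zero, Nat.sub_zero]
  rfl

end Pool.Agent.Lib.MP_edb5be_nt.TS.H07
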